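import Pool.Agent.W203.WS.Stm

set_option autoImplicit false

open MeasureTheory Finset Filter
open Pool.Agent.W203.WS

namespace Pool.Agent.W5.WS

lemma Er_nonneg (k s P : ℕ) (ε : ℝ) (hε : 0 ≤ ε) (θ : Fin s → ℝ) : 0 ≤ Er k s P ε θ := by
  unfold Er
  refine integral_nonneg fun t => ?_
  unfold Kh
  positivity

lemma cube_finite (s : ℕ) : (volume : Measure (Fin s → ℝ)) (cube s) < ⊤ := by
  have : IsCompact (cube s) := isCompact_univ_pi fun _ => isCompact_Icc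
  exact this.measure_lt_top

theorem t_BC (h1 : S_EE) (h2 : S_ID) (h3 : S_JL) : S_BC := by
  intro k s β hk hs hβ0 hβ
  have hs5 : 5 ≤ s := by omega
  obtain ⟨C, hC, hE⟩ := h1 k s hk hs5
  obtain ⟨c, hc, hJ⟩ := h3 k s (by omega) (by omega)
  refine ⟨c / 2, by positivity, ?_⟩
  have : IsFiniteMeasure ((volume : Measure (Fin s → ℝ)).restrict (cube s)) :=
    ⟨by rw [Measure.restrict_apply_univ]; exact cube_finite s⟩
  have hP0 : ∀ j : ℕ, (0 : ℝ) < (2 : ℝ) ^ j := fun j => by positivity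
  have hP1 : ∀ j : ℕ, (1 : ℝ) ≤ (2 : ℝ) ^ j := fun j => one_le_pow₀ (by norm_num)
  have hcast : ∀ j : ℕ, ((2 ^ j : ℕ) : ℝ) = (2 : ℝ) ^ j := fun j => by push_cast; rfl
  have hε0 : ∀ j : ℕ, (0 : ℝ) < ((2 : ℝ) ^ j) ^ (-β) := fun j => Real.rpow_pos_of_pos (hP0 j) _
  have hε1 : ∀ j : ℕ, ((2 : ℝ) ^ j) ^ (-β) ≤ 1 := fun j =>
    Real.rpow_le_one_of_one_le_of_nonpos (hP1 j) (by linarith)
  have hbound : ∀ j : ℕ, ((volume : Measure (Fin s → ℝ)).restrict (cube s))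
      {θ | (c / 2) * ((2 : ℝ) ^ j) ^ ((s : ℝ) - k - β) ≤
        Er k s (2 ^ j) (((2 : ℝ) ^ j) ^ (-β)) θ} ≤
      ENNReal.ofReal ((2 * C / c) * (((2 : ℝ) ^ (-(1 / 2) : ℝ)) ^ j +
        ((2 : ℝ) ^ (-((s : ℝ) / 2 - k - β))) ^ j)) := by
    intro j
    obtain ⟨hint, hle⟩ := hE (2 ^ j) (((2 : ℝ) ^ j) ^ (-β)) Nat.one_le_two_pow (hε0 j) (hε1 j)
    have hm := mul_meas_ge_le_integral_of_nonneg
      (μ := (volume : Measure (Fin s → ℝ)).restrict (cube s))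
      (f := fun θ => Er k s (2 ^ j) (((2 : ℝ) ^ j) ^ (-β)) θ)
      (ae_of_all _ fun θ => Er_nonneg k s _ _ (hε0 j).le θ) hint
      ((c / 2) * ((2 : ℝ) ^ j) ^ ((s : ℝ) - k - β))
    rw [← ENNReal.ofReal_toReal (measure_ne_top _ _)]
    refine ENNReal.ofReal_le_ofReal ?_
    have hm2 := hm.trans hle
    rw [hcast j] at hm2
    have hQ : (0 : ℝ) < ((2 : ℝ) ^ j) ^ ((s : ℝ) - k - β) := Real.rpow_pos_of_pos (hP0 j) _
    have e1 : ((2 : ℝ) ^ j) ^ (-β) * ((2 : ℝ) ^ j) ^ ((s : ℝ) - k - 1 / 2) =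
        ((2 : ℝ) ^ j) ^ ((s : ℝ) - k - β) * ((2 : ℝ) ^ (-(1 / 2) : ℝ)) ^ j := by
      rw [Real.rpow_pow_comm (by norm_num), ← Real.rpow_add (hP0 j), ← Real.rpow_add (hP0 j)]
      congr 1
      ring
    have e2 : ((2 : ℝ) ^ j) ^ ((s : ℝ) / 2) =
        ((2 : ℝ) ^ j) ^ ((s : ℝ) - k - β) * ((2 : ℝ) ^ (-((s : ℝ) / 2 - k - β))) ^ j := by
      rw [Real.rpow_pow_comm (by norm_num), ← Real.rpow_add (hP0 j)]
      congr 1
      ring
    rw [e1, e2, ← mul_add] at hm2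
    have hm3 : ((2 : ℝ) ^ j) ^ ((s : ℝ) - k - β) * ((c / 2) *
        ((volume : Measure (Fin s → ℝ)).restrict (cube s)).real
        {θ | (c / 2) * ((2 : ℝ) ^ j) ^ ((s : ℝ) - k - β) ≤
        Er k s (2 ^ j) (((2 : ℝ) ^ j) ^ (-β)) θ}) ≤ ((2 : ℝ) ^ j) ^ ((s : ℝ) - k - β) *
        (C * (((2 : ℝ) ^ (-(1 / 2) : ℝ)) ^ j + ((2 : ℝ) ^ (-((s : ℝ) / 2 - k - β))) ^ j)) := by
      refine le_trans (le_of_eq ?_) (hm2.trans (le_of_eq ?_)) <;> ring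
    have hm4 := le_of_mul_le_mul_left hm3 hQ
    change ((volume : Measure (Fin s → ℝ)).restrict (cube s)).real
        {θ | (c / 2) * ((2 : ℝ) ^ j) ^ ((s : ℝ) - k - β) ≤
        Er k s (2 ^ j) (((2 : ℝ) ^ j) ^ (-β)) θ} ≤ _
    have h5 : ((volume : Measure (Fin s → ℝ)).restrict (cube s)).real
        {θ | (c / 2) * ((2 : ℝ) ^ j) ^ ((s : ℝ) - k - β) ≤
        Er k s (2 ^ j) (((2 : ℝ) ^ j) ^ (-β)) θ} ≤ (C * (((2 : ℝ) ^ (-(1 / 2) : ℝ)) ^ j +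
        ((2 : ℝ) ^ (-((s : ℝ) / 2 - k - β))) ^ j)) / (c / 2) := by
      rw [le_div_iff₀ (by positivity), mul_comm]
      exact hm4
    refine h5.trans (le_of_eq ?_)
    field_simp
  have hsum : Summable (fun j : ℕ => (2 * C / c) * (((2 : ℝ) ^ (-(1 / 2) : ℝ)) ^ j +
        ((2 : ℝ) ^ (-((s : ℝ) / 2 - k - β))) ^ j)) := by
    refine Summable.mul_left _ (Summable.add ?_ ?_)
    · exact summable_geometric_of_lt_one (by positivity)
        (Real.rpow_lt_one_of_one_lt_of_neg (by norm_num) (by norm_num))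
    · exact summable_geometric_of_lt_one (by positivity)
        (Real.rpow_lt_one_of_one_lt_of_neg (by norm_num) (by linarith))
  have htop : ∑' j : ℕ, ((volume : Measure (Fin s → ℝ)).restrict (cube s))
      {θ | (c / 2) * ((2 : ℝ) ^ j) ^ ((s : ℝ) - k - β) ≤
        Er k s (2 ^ j) (((2 : ℝ) ^ j) ^ (-β)) θ} ≠ ⊤ := by
    refine ne_top_of_le_ne_top ?_ (ENNReal.tsum_le_tsum hbound)
    exact hsum.tsum_ofReal_ne_top
  have hae := ae_eventually_notMem htop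
  filter_upwards [hae] with θ hθ
  obtain ⟨j₀, hj₀⟩ := eventually_atTop.mp hθ
  refine ⟨j₀, fun j hj M hM1 hM2 => ?_⟩
  have hb := hj₀ j hj
  simp only [Set.mem_setOf_eq, not_le] at hb
  have hJ' := hJ (2 ^ j) (((2 : ℝ) ^ j) ^ (-β)) M Nat.one_le_two_pow (hε0 j) (hε1 j)
    (by rw [hcast]; exact hM1) (by rw [hcast]; exact hM2)
  rw [hcast] at hJ'
  have hI := h2 k s (2 ^ j) (((2 : ℝ) ^ j) ^ (-β)) M θ (hε0 j)
  have hI2 := (abs_le.mp hI).1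
  have e3 : c * ((2 : ℝ) ^ j) ^ (-β) * ((2 : ℝ) ^ j) ^ ((s : ℝ) - k) =
      c * ((2 : ℝ) ^ j) ^ ((s : ℝ) - k - β) := by
    rw [mul_assoc, ← Real.rpow_add (hP0 j)]
    congr 2
    ring
  rw [e3] at hJ'
  linarith

end Pool.Agent.W5.WS
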